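import Pool.Agent.H29.UDP.TPro
import Pool.Agent.H15.DPC.CUT
import Pool.Agent.H1.DPC.MCT

/-!
# Row SMB of udp_modules: the second moment of all test functions, from the cubes of side one
-/

set_option autoImplicit false

open MeasureTheory SchwartzMap Filter Topology
open scoped ENNReal ContDiff InnerProductSpace

namespace Pool.Agent.H86.UDP

open Pool.Agent.H43.DPC (V S SD moment trans rot dualMap IsMAO IsDC Diag Nn pm cell cut box sepBox
  lat)
open Pool.Agent.H80.LD (Re IsField pair ml RPos Dom LocP)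
open Pool.Agent.H29.UDP

noncomputable section

theorem Nn_two {d : ℕ} {μ : Measure (SD d)} (hM : IsMAO μ) (f : S d) :
    Nn μ 2 f ^ 2 = ∫ T : SD d, (T f) ^ 2 ∂μ := by
  unfold Nn
  rw [MemLp.eLpNorm_eq_integral_rpow_norm (by simp) (ENNReal.natCast_ne_top 2)
    (hM f _ (ENNReal.natCast_ne_top 2)), ENNReal.toReal_ofReal (by positivity)]
  have h1 : ((2 : ℕ) : ℝ≥0∞).toReal = 2 := by simp
  rw [h1]
  have h2 : 0 ≤ ∫ T : SD d, ‖T f‖ ^ (2 : ℝ) ∂μ := by positivity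
  rw [← Real.rpow_natCast, ← Real.rpow_mul h2]
  norm_num

theorem mom_two {d : ℕ} (μ : Measure (SD d)) (f : S d) :
    moment μ ![f, f] = ∫ T : SD d, (T f) ^ 2 ∂μ := by
  unfold moment
  refine integral_congr_ae (Eventually.of_forall fun T => ?_)
  simp only [Fin.prod_univ_two, Matrix.cons_val_zero, Matrix.cons_val_one]
  ring

/-- the weights -/
def g (i : ℤ) : ℝ := ((1 + |(i : ℝ)|) ^ 2)⁻¹

theorem g_nonneg (i : ℤ) : 0 ≤ g i := by unfold g; positivity

theorem g_summable : Summable g := by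
  have h1 : Summable fun n : ℤ => 1 / (n : ℝ) ^ 2 := Real.summable_one_div_int_pow.2 one_lt_two
  refine Summable.of_norm_bounded_eventually (g := fun n : ℤ => 1 / (n : ℝ) ^ 2) h1 ?_
  have h2 : ∀ᶠ i : ℤ in cofinite, i ≠ 0 := by
    rw [eventually_cofinite]
    simp
  filter_upwards [h2] with i hi
  have hi' : 0 < |(i : ℝ)| := abs_pos.2 (by exact_mod_cast hi)
  rw [Real.norm_eq_abs, abs_of_nonneg (g_nonneg i), g, one_div, ← sq_abs (i : ℝ)]
  gcongr
  linarith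

theorem sum_g (d K : ℕ) : ∑ k ∈ box d K, ∏ j, g (k j) ≤ (∑' i, g i) ^ d := by
  have h1 : ∑ k ∈ box d K, ∏ j, g (k j) = ∏ _j : Fin d, ∑ i ∈ Finset.Icc (-(K : ℤ)) K, g i := by
    rw [Finset.prod_univ_sum]
    rfl
  rw [h1, Finset.prod_const, Finset.card_univ, Fintype.card_fin]
  exact pow_le_pow_left₀ (Finset.sum_nonneg fun i _ => g_nonneg i)
    (g_summable.sum_le_tsum _ fun i _ => g_nonneg i) _

/-- decay of the test function in a cell -/
theorem decay {d : ℕ} (f : S d) (k : Fin d → ℤ) (x : V d) (hx : ∀ j, |x j - k j| ≤ 1) :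
    |f x| ≤ 16 ^ d * pm (2 * d) f * ∏ j, g (k j) := by
  have h1 := SchwartzMap.one_add_le_sup_seminorm_apply (𝕜 := ℝ) (m := (2 * d, 2 * d))
    (k := 2 * d) (n := 0) le_rfl (Nat.zero_le _) f x
  rw [norm_iteratedFDeriv_zero, Real.norm_eq_abs] at h1
  have h2 : (1 + ‖x‖) ^ (2 * d) * |f x| ≤ 2 ^ (2 * d) * pm (2 * d) f := h1
  have h3 : ∀ j, (1 + |(k j : ℝ)|) ^ 2 ≤ (2 * (1 + ‖x‖)) ^ 2 := by
    intro j
    have h4 : |x j| ≤ ‖x‖ := by
      have := EuclideanSpace.norm_eq x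
      rw [← Real.norm_eq_abs]
      exact PiLp.norm_apply_le x j
    have h5 := hx j
    have h6 : |(k j : ℝ)| ≤ |x j| + 1 := by
      rcases abs_cases ((k j : ℝ)) with h | h <;> rcases abs_cases (x j - k j) with h' | h' <;>
        rcases abs_cases (x j) with h'' | h'' <;> linarith
    have h7 : 0 ≤ ‖x‖ := norm_nonneg x
    gcongr
    linarith
  have h4 : ∏ j, (1 + |(k j : ℝ)|) ^ 2 ≤ ∏ _j : Fin d, (2 * (1 + ‖x‖)) ^ 2 :=
    Finset.prod_le_prod (fun j _ => by positivity) fun j _ => h3 j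
  rw [Finset.prod_const, Finset.card_univ, Fintype.card_fin, ← pow_mul, mul_pow] at h4
  have h5 : ∏ j, g (k j) = (∏ j, (1 + |(k j : ℝ)|) ^ 2)⁻¹ := by
    unfold g
    rw [Finset.prod_inv_distrib]
  have h6 : 0 < ∏ j, (1 + |(k j : ℝ)|) ^ 2 := Finset.prod_pos fun j _ => by positivity
  rw [h5, ← div_eq_mul_inv, le_div_iff₀ h6]
  calc |f x| * ∏ j, (1 + |(k j : ℝ)|) ^ 2 ≤ |f x| * (2 ^ (2 * d) * (1 + ‖x‖) ^ (2 * d)) := by
        gcongr
    _ = 2 ^ (2 * d) * ((1 + ‖x‖) ^ (2 * d) * |f x|) := by ring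
    _ ≤ 2 ^ (2 * d) * (2 ^ (2 * d) * pm (2 * d) f) := by gcongr
    _ = 16 ^ d * pm (2 * d) f := by
        rw [pow_mul]
        norm_num
        have h7 : (16 : ℝ) ^ d = 4 ^ d * 4 ^ d := by rw [← mul_pow]; norm_num
        rw [h7]
        ring

theorem cell_le_one (hLAT : Pool.Agent.H43.DPC.T_LAT) (d : ℕ) (k : Fin d → ℤ) (x : V d) :
    cell 1 k x ≤ 1 := by
  have hk : k ∈ box d (Finset.univ.sup fun j => (k j).natAbs) := by
    unfold box
    rw [Fintype.mem_piFinset]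
    intro j
    rw [Finset.mem_Icc]
    have h1 : (k j).natAbs ≤ Finset.univ.sup fun j => (k j).natAbs :=
      Finset.le_sup (f := fun j => (k j).natAbs) (Finset.mem_univ j)
    omega
  exact (Finset.single_le_sum (f := fun k => cell 1 k x) (fun k _ => hLAT.nonneg d 1 k x) hk).trans
    (hLAT.sum_le_one d 1 _ x)

/-- the norm of the part in a cell -/
theorem cell_bound (hLAT : Pool.Agent.H43.DPC.T_LAT) {d : ℕ} {μ : Measure (SD d)} (hD : Dom μ)
    {K : ℝ} (hK : ∀ (y : V d) (h : S d), (∀ x, 0 ≤ h x ∧ h x ≤ 1) →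
      (∀ x, h x ≠ 0 → ∀ j, |x j - y j| ≤ 1) → moment μ ![h, h] ≤ K)
    (k : Fin d → ℤ) (f : S d) (a : ℝ) (ha : 0 ≤ a)
    (hfa : ∀ x : V d, (∀ j, |x j - (k j : ℝ)| ≤ 1) → |f x| ≤ a) : Nn μ 2 (cut 1 k f) ≤ Real.sqrt K * a := by
  obtain ⟨H, hH⟩ : ∃ H : S d, ∀ x, H x = cell 1 k x :=
    ⟨(hLAT.compact d 1 one_pos k).toSchwartzMap (hLAT.contDiff d 1 k), fun x => rfl⟩
  have hsupp : ∀ x, cell 1 k x ≠ 0 → ∀ j, |x j - k j| ≤ 1 := by
    intro x hx j
    have h1 := hLAT.tsupport d 1 one_pos k x (subset_tsupport _ hx) j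
    rwa [one_mul] at h1
  have h1 : moment μ ![H, H] ≤ K := by
    refine hK (lat k) H (fun x => ?_) fun x hx j => ?_
    · rw [hH]
      exact ⟨hLAT.nonneg d 1 k x, cell_le_one hLAT d k x⟩
    · rw [hH] at hx
      exact hsupp x hx j
  have h2 : ∀ x, |cut 1 k f x| ≤ (a • H) x := by
    intro x
    rw [hLAT.cut_apply d 1 one_pos k f x, smul_apply, hH, smul_eq_mul, abs_mul,
      abs_of_nonneg (hLAT.nonneg d 1 k x), mul_comm]
    by_cases hx : cell 1 k x = 0
    · rw [hx, mul_zero, mul_zero]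
    · exact mul_le_mul_of_nonneg_right (hfa x (hsupp x hx)) (hLAT.nonneg d 1 k x)
  have h3 := hD.maj 2 ![cut 1 k f, cut 1 k f] ![a • H, a • H] (by
    intro i x
    fin_cases i
    · exact h2 x
    · exact h2 x)
  have h4 : moment μ ![a • H, a • H] = a ^ 2 * moment μ ![H, H] := by
    rw [mom_two, mom_two, ← integral_const_mul]
    refine integral_congr_ae (Eventually.of_forall fun T => ?_)
    show (T (a • H)) ^ 2 = a ^ 2 * (T H) ^ 2
    rw [map_smul, smul_eq_mul, mul_pow]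
  have h5 : Nn μ 2 (cut 1 k f) ^ 2 ≤ a ^ 2 * K := by
    rw [Nn_two hD.mao, ← mom_two]
    refine (le_abs_self _).trans (h3.trans ?_)
    rw [h4]
    exact mul_le_mul_of_nonneg_left h1 (sq_nonneg a)
  have hN : 0 ≤ Nn μ 2 (cut 1 k f) := ENNReal.toReal_nonneg
  calc Nn μ 2 (cut 1 k f) = Real.sqrt (Nn μ 2 (cut 1 k f) ^ 2) := (Real.sqrt_sq hN).symm
    _ ≤ Real.sqrt (a ^ 2 * K) := Real.sqrt_le_sqrt h5
    _ = Real.sqrt K * a := by
        rw [Real.sqrt_mul (sq_nonneg a), Real.sqrt_sq ha, mul_comm]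

theorem Nn_sum (hHOL : Pool.Agent.H43.DPC.T_HOL) {d : ℕ} {μ : Measure (SD d)}
    [IsProbabilityMeasure μ] (hM : IsMAO μ) {ι : Type} (s : Finset ι) (u : ι → S d) :
    Nn μ 2 (∑ i ∈ s, u i) ≤ ∑ i ∈ s, Nn μ 2 (u i) := by
  classical
  induction s using Finset.induction_on with
  | empty =>
    rw [Finset.sum_empty, Finset.sum_empty]
    unfold Nn
    have h1 : (fun φ : SD d => φ (0 : S d)) = fun _ => 0 := funext fun φ => map_zero φ
    rw [h1, eLpNorm_zero']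
    simp
  | insert i s hi ih =>
    rw [Finset.sum_insert hi, Finset.sum_insert hi]
    exact ((hHOL d μ hM).2.2 2 (by norm_num) _ _).trans (by gcongr)

theorem pf_SMB (hLAT : Pool.Agent.H43.DPC.T_LAT) (hHOL : Pool.Agent.H43.DPC.T_HOL)
    (hCTN : Pool.Agent.H43.DPC.T_CTN) : T_SMB := by
  intro d
  have hA : 0 ≤ ∑' i, g i := tsum_nonneg g_nonneg
  refine ⟨16 ^ d * (∑' i, g i) ^ d, 2 * d, by positivity, ?_⟩
  intro μ _ hD K hK f
  have hpm : 0 ≤ pm (2 * d) f :=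
    apply_nonneg ((Finset.Iic (2 * d, 2 * d)).sup (schwartzSeminormFamily ℝ (V d) ℝ)) _
  have hK0 : 0 ≤ K := by
    have h1 := hK 0 0 (fun x => by simp) (fun x hx => absurd rfl hx)
    rw [mom_two] at h1
    refine le_trans ?_ h1
    positivity
  -- functions with compact support
  have hmain : ∀ u : S d, HasCompactSupport u → (∀ x, |u x| ≤ |f x|) →
      Nn μ 2 u ≤ Real.sqrt K * (16 ^ d * (∑' i, g i) ^ d * pm (2 * d) f) := by
    intro u hu huf
    obtain ⟨R, hR⟩ : ∃ R : ℕ, ∀ x, u x ≠ 0 → ∀ j, |x j| ≤ R := by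
      obtain ⟨r, hr⟩ := hu.isCompact.isBounded.subset_closedBall (0 : V d)
      refine ⟨⌈r⌉₊, fun x hx j => ?_⟩
      have h1 : ‖x‖ ≤ r := by
        have := hr (subset_tsupport _ hx)
        rwa [mem_closedBall_zero_iff] at this
      have h2 : |x j| ≤ ‖x‖ := by
        rw [← Real.norm_eq_abs]
        exact PiLp.norm_apply_le x j
      exact h2.trans (h1.trans (Nat.le_ceil r))
    have h1 := hLAT.sum_cut d 0 R u hR
    have h2 : ((0 : ℕ) : ℝ) + 1 = 1 := by norm_num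
    rw [zero_add, mul_one, h2, inv_one] at h1
    have h3 : Nn μ 2 u ≤ ∑ k ∈ box d R, Nn μ 2 (cut 1 k u) := by
      conv_lhs => rw [← h1]
      exact Nn_sum hHOL hD.mao _ _
    refine h3.trans ?_
    calc ∑ k ∈ box d R, Nn μ 2 (cut 1 k u)
        ≤ ∑ k ∈ box d R, Real.sqrt K * (16 ^ d * pm (2 * d) f * ∏ j, g (k j)) := by
          refine Finset.sum_le_sum fun k _ => ?_
          refine cell_bound hLAT hD hK k u _ ?_ fun x hx => (huf x).trans (decay f k x hx)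
          exact mul_nonneg (by positivity) (Finset.prod_nonneg fun j _ => g_nonneg _)
      _ = Real.sqrt K * (16 ^ d * pm (2 * d) f * ∑ k ∈ box d R, ∏ j, g (k j)) := by
          rw [Finset.mul_sum, Finset.mul_sum]
      _ ≤ Real.sqrt K * (16 ^ d * pm (2 * d) f * (∑' i, g i) ^ d) := by
          refine mul_le_mul_of_nonneg_left (mul_le_mul_of_nonneg_left (sum_g d R) ?_)
            (Real.sqrt_nonneg K)
          positivity
      _ = Real.sqrt K * (16 ^ d * (∑' i, g i) ^ d * pm (2 * d) f) := by ring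
  -- the general case
  obtain ⟨θ, hθ1, hθ2, -, hθ4⟩ := Pool.Agent.H43.DPC.CUT d
  have hlim : Nn μ 2 f ≤ Real.sqrt K * (16 ^ d * (∑' i, g i) ^ d * pm (2 * d) f) := by
    have h1 : Tendsto (fun m => Nn μ 2 (θ m f - f)) atTop (𝓝 0) :=
      Pool.Agent.H1.DPC.MCT_Nn_zero (hCTN d μ hD.mao 2 (by norm_num)) (fun m => θ m f) f (hθ4 f)
    have h2 : ∀ m, Nn μ 2 f ≤ Real.sqrt K * (16 ^ d * (∑' i, g i) ^ d * pm (2 * d) f) +
        Nn μ 2 (θ m f - f) := by
      intro m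
      have h3 := (hHOL d μ hD.mao).2.2 2 (by norm_num) (θ m f) (-(θ m f - f))
      have h4 : θ m f + -(θ m f - f) = f := by abel
      have h5 : Nn μ 2 (-(θ m f - f)) = Nn μ 2 (θ m f - f) := by
        unfold Nn
        have h6 : (fun φ : SD d => φ (-(θ m f - f))) = -fun φ : SD d => φ (θ m f - f) :=
          funext fun φ => map_neg φ _
        rw [h6, eLpNorm_neg]
      rw [h4, h5] at h3
      exact h3.trans (by gcongr; exact hmain _ (hθ1 m f) (hθ2 m f))
    have h3 : Tendsto (fun m => Real.sqrt K * (16 ^ d * (∑' i, g i) ^ d * pm (2 * d) f) +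
        Nn μ 2 (θ m f - f)) atTop
        (𝓝 (Real.sqrt K * (16 ^ d * (∑' i, g i) ^ d * pm (2 * d) f) + 0)) :=
      tendsto_const_nhds.add h1
    rw [add_zero] at h3
    exact ge_of_tendsto' h3 h2
  rw [← Nn_two hD.mao]
  have hN : 0 ≤ Nn μ 2 f := ENNReal.toReal_nonneg
  calc Nn μ 2 f ^ 2 ≤ (Real.sqrt K * (16 ^ d * (∑' i, g i) ^ d * pm (2 * d) f)) ^ 2 := by gcongr
    _ = K * (16 ^ d * (∑' i, g i) ^ d * pm (2 * d) f) ^ 2 := by
        rw [mul_pow, Real.sq_sqrt hK0]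

end

end Pool.Agent.H86.UDP
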